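import Mathlib
import Pool.Agent.TH497.PW.IntFlow
import Pool.Agent.TH362.FP.Pos
import Pool.Agent.Y335.FL.Main
import Pool.Agent.J4.H76.SG.Main
import Pool.Agent.J4.H76.SG.Disc

set_option autoImplicit false

/-!
# Nowhere-zero 5-flows in string graphs (MP_c8786f_co)

Let `G` be a bridgeless multigraph whose underlying simple graph is a string graph: there are
connected sets `Z v` in the plane (path-connected, for instance curves, segments, discs, polygons,
regions, or compact and connected) such that `Z u` and `Z v` intersect if and only if the vertices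
`u ≠ v` are adjacent.  Then `G` has a nowhere-zero 5-flow, and the characteristic polynomial of its
bond matroid, a binary matroid without a minor isomorphic to `F_7` or `M(K_{3,3})`, is positive at
all integers `q ≥ 5`.  The order, the degrees, the connectivity, the genus and the treewidth of `G`
are arbitrary (all complete graphs and all planar graphs are string graphs).

More generally, at most `18` vertices (the set `T`) need not be represented; the plane may be
replaced by a graph which satisfies MacLane's condition with defect `h` (for instance a graph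
embedded in a surface of Euler genus `h`) if `7 |T| + 6 h ≤ 137`, for instance `T = ∅` and `h ≤ 22`
(region intersection graphs); and the sets of nonadjacent vertices `u`, `v` may intersect if `u`,
`v` are joined by paths in `F` to vertices `u'`, `v'` which are equal or adjacent, where `F` is the
union of a chain of cycles each of which has at most eleven edges outside of the union of the
earlier ones.  (For instance the sets of two vertices on a common closed trail with at most eleven
edges may always intersect.)

Proof.  The class is closed under contractions: the union of two intersecting connected sets is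
connected.  (It is not closed under deletions.)  Let `G` be a graph in the class without
nowhere-zero 5-flow all of whose proper contractions have such flows.  By the starting library
`Y335/FL`, `F` consists of loops, `G` has girth at least twelve, all degrees are at least three
(apart from isolated vertices) and there are at least `189` edges.

(1) For compact connected sets in the plane one takes a fine square grid and the sets `R v` of the
closed cells which meet `Z v`.  They are connected, and they represent the same graph.  Square
grids satisfy MacLane's condition.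

(2) So `G - T` is represented by connected sets `R v` of vertices of a host graph with the edge set
`D` which satisfies MacLane's condition with defect `h`.  As `G` has no triangles, every vertex `x`
of the host is in at most two of the sets: its label `L x` is empty, a vertex or an edge of
`G - T`.  MacLane's condition is kept if an edge is deleted, and if two vertices `x`, `y` of the
host are identified which are joined by a chain `P` contained in one of the faces `K i` (replace
`K i` by `P` and `K i + P`) or with edges in at most one face each (add `P` to the faces).  Take a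
representation with the smallest number of vertices with nonempty labels and, under this condition,
the smallest number of edges.  Then the ends of an edge of the host have labels `{u, v}` and
`{u, w}` with different `u`, `v`, `w`; the edges in one region `R u` form a tree; and there are no
vertices `x ≠ y` with the same labels joined by a chain in one face (or in the sum of all faces).

(3) All faces and their sum have at least twelve edges: otherwise the map which sends an edge of
the host with the ends `{u, v}`, `{u, w}` to the path `uv, u, uw` sends a component of the face to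
an element of the cycle space of (the subdivision of) `G - T` with less than `24` edges, that is,
to zero.  As the edges in one region are a forest, there are a vertex `x` of the host and a region
`R u` such that the number of the edges of the component which are in `R u` and have the end `x` is
odd, and then there is a second such vertex with the same label as `x`.

(4) Let `N ≥ |E(G - T)|` be the number of the vertices of the host which are ends of edges, `n` the
number of vertices of `G - T`.  Then `|D| ≥ 2 N - n`, the cycle space has dimension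
`c ≥ |D| - N + 1`, there are `r ≥ c - h` independent faces, and `12 (r + 1) ≤ 2 |D|`.  Together with
the Moore type bounds for girth twelve for the degrees of the vertices of `T` this is a
contradiction.
-/

namespace Pool.Agent.Results.MP_c8786f_co.StringGraphs

open Pool.Agent.TH497.PW

variable {V E X D : Type}

/-- The edges with exactly one end in `Y`. -/
def boundary [DecidableEq V] [Fintype E] (src dst : E → V) (Y : Finset V) : Finset E :=
  Finset.univ.filter (fun e => ¬ (src e ∈ Y ↔ dst e ∈ Y))

/-- Kirchhoff's law. -/
def IsFlow [DecidableEq V] [Fintype E] (src dst : E → V) (f : E → ℤ) : Prop :=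
  ∀ v : V, ∑ e ∈ Finset.univ.filter (fun e => src e = v), f e
    = ∑ e ∈ Finset.univ.filter (fun e => dst e = v), f e

/-- The vertices `u` and `v` are different and joined by an edge. -/
def Adjacent (src dst : E → V) (u v : V) : Prop :=
  u ≠ v ∧ ∃ e, (src e = u ∧ dst e = v) ∨ (src e = v ∧ dst e = u)

/-- The vertices `u` and `v` are joined by a path (possibly without edges) with edges in `F`. -/
def Joined (src dst : E → V) (F : Finset E) (u v : V) : Prop :=
  Relation.EqvGen (fun a b => ∃ e ∈ F, src e = a ∧ dst e = b) u v

/-- `u` and `v` are joined by paths in `F` to vertices which are equal or adjacent. -/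
def Near (src dst : E → V) (F : Finset E) (u v : V) : Prop :=
  ∃ u' v', Joined src dst F u u' ∧ Joined src dst F v v' ∧ (u' = v' ∨ Adjacent src dst u' v')

/-- The cycle space over `GF(2)` of the graph with the vertices `X` and the edges `D`, where `d`
joins `a d` and `b d`. -/
def cycleSpace [DecidableEq X] [Fintype D] (a b : D → X) : Submodule (ZMod 2) (D → ZMod 2) where
  carrier := {z | ∀ x : X, ∑ d ∈ Finset.univ.filter (fun d => a d = x), z d
      + ∑ d ∈ Finset.univ.filter (fun d => b d = x), z d = 0}
  add_mem' := by
    intro y z h1 h2 x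
    simp only [Pi.add_apply, Finset.sum_add_distrib]
    have := congrArg₂ (· + ·) (h1 x) (h2 x)
    simp only [add_zero] at this
    rw [← this]
    ring
  zero_mem' := fun x => by simp
  smul_mem' := by
    intro c z h x
    simp only [Pi.smul_apply, smul_eq_mul, ← Finset.mul_sum]
    rw [← mul_add, h x, mul_zero]

/-- MacLane's condition with defect `h`: there is a finite family of elements of the cycle space
such that every edge is in at most two of them and the dimension of the cycle space is at most the
dimension of their span plus `h`. -/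
def MacLaneDefect [DecidableEq X] [Fintype D] (a b : D → X) (h : ℕ) : Prop :=
  ∃ (k : ℕ) (K : Fin k → D → ZMod 2), (∀ i, K i ∈ cycleSpace a b) ∧
    (∀ d, (Finset.univ.filter (fun i => K i d ≠ 0)).card ≤ 2) ∧
    Module.finrank (ZMod 2) (cycleSpace a b) ≤
      Module.finrank (ZMod 2) (Submodule.span (ZMod 2) (Set.range K)) + h

/-- The set `A` of vertices is empty or induces a connected subgraph: a nonempty subset of `A`
which contains with one end of an edge also the other end, if this is in `A`, is equal to `A`. -/
def Connected (a b : D → X) (A : Finset X) : Prop :=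
  ∀ B ⊆ A, B.Nonempty → (∀ d, a d ∈ B → b d ∈ A → b d ∈ B) →
    (∀ d, b d ∈ B → a d ∈ A → a d ∈ B) → B = A

/-- There are connected sets of vertices of a graph which satisfies MacLane's condition with defect
`h`, for the vertices outside `T`, such that the sets of `u` and `v` intersect if and only if
`meet u v`. -/
def MeetInGraph (T : Finset V) (meet : V → V → Prop) (h : ℕ) : Prop :=
  ∃ (X D : Type) (_ : Fintype X) (_ : DecidableEq X) (_ : Fintype D) (_ : DecidableEq D)
    (a b : D → X) (R : V → Finset X), MacLaneDefect a b h ∧ (∀ v ∉ T, Connected a b (R v)) ∧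
    ∀ u ∉ T, ∀ v ∉ T, (meet u v ↔ (R u ∩ R v).Nonempty)

/-- There are sets in the plane, for the vertices outside `T`, each of which is path-connected or
compact and connected, such that the sets of `u` and `v` intersect if and only if `meet u v`. -/
def MeetInPlane (T : Finset V) (meet : V → V → Prop) : Prop :=
  ∃ Z : V → Set (ℝ × ℝ),
    (∀ v ∉ T, IsPathConnected (Z v) ∨ (IsCompact (Z v) ∧ IsConnected (Z v))) ∧
    ∀ u ∉ T, ∀ v ∉ T, (meet u v ↔ (Z u ∩ Z v).Nonempty)

/-- The number of the components of the graph with the vertices `V` and the edges `A`. -/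
noncomputable def components (src dst : E → V) (A : Finset E) : ℕ :=
  Nat.card (SimpleGraph.fromRel
    (fun u v : V => ∃ e ∈ A, src e = u ∧ dst e = v)).ConnectedComponent

/-- The rank of `A` in the cycle matroid of the graph. -/
noncomputable def cycleRank [Fintype V] (src dst : E → V) (A : Finset E) : ℕ :=
  Fintype.card V - components src dst A

/-- The rank of `A` in the bond matroid of the graph (the dual of the cycle matroid). -/
noncomputable def bondRank [Fintype V] [Fintype E] [DecidableEq E] (src dst : E → V)
    (A : Finset E) : ℕ :=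
  A.card + cycleRank src dst Aᶜ - cycleRank src dst Finset.univ

/-- The characteristic polynomial of the bond matroid at the integer `x`. -/
noncomputable def bondCharPoly [Fintype V] [Fintype E] [DecidableEq E] (src dst : E → V)
    (x : ℤ) : ℤ :=
  ∑ A : Finset E, (-1) ^ A.card * x ^ (bondRank src dst Finset.univ - bondRank src dst A)

theorem isFlow_iff [DecidableEq V] [Fintype E] (src dst : E → V) (f : E → ℤ) :
    IsFlow src dst f ↔
      ∀ v, ∑ e, f e * ((if src e = v then 1 else 0) - (if dst e = v then 1 else 0)) = 0 := by
  unfold IsFlow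
  refine forall_congr' fun v => ?_
  rw [Finset.sum_filter, Finset.sum_filter, ← sub_eq_zero, ← Finset.sum_sub_distrib]
  have : ∀ e, (if src e = v then f e else 0) - (if dst e = v then f e else 0)
      = f e * ((if src e = v then 1 else 0) - (if dst e = v then 1 else 0)) := by
    intro e
    by_cases h1 : src e = v <;> by_cases h2 : dst e = v <;> simp [h1, h2]
  rw [Finset.sum_congr rfl (fun e _ => this e)]

theorem nzf [Fintype V] [DecidableEq V] [Fintype E] [DecidableEq E] (src dst : E → V)
    (h : Pool.Agent.TH676.Z.FlowOn src dst ∅ ∅) : NZF src dst := by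
  obtain ⟨f, h1, _, h3⟩ := h
  refine ⟨f, fun e => h3 e (Finset.notMem_empty _) (Finset.notMem_empty _), fun x => ?_⟩
  rw [← h1 x]
  unfold Pool.Agent.TH676.Z.bd
  refine Finset.sum_congr rfl fun e _ => ?_
  unfold ic
  by_cases h4 : src e = x <;> by_cases h5 : dst e = x <;> simp [h4, h5]

theorem charPoly_pos [Fintype V] [DecidableEq V] [Fintype E] [DecidableEq E] (src dst : E → V)
    (f : E → ℤ) (h1 : IsFlow src dst f) (h2 : ∀ e, 1 ≤ |f e| ∧ |f e| ≤ 4) (q : ℕ) (hq : 5 ≤ q) :
    0 < bondCharPoly src dst q :=
  Pool.Agent.TH362.FP.chr_pos src dst f h2 h1 q hq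

/-- the reduction modulo five of a flow with values in `{0, 1, -1}` -/
theorem mod5 [Fintype V] [DecidableEq V] [Fintype E] [DecidableEq E] (src dst : E → V)
    (C : Finset E) (h : ∃ z : E → ℤ, IsFlow src dst z ∧ (∀ e, z e = 0 ∨ z e = 1 ∨ z e = -1) ∧
      ∀ e, z e ≠ 0 ↔ e ∈ C) :
    ∃ z : E → ZMod 5, (∀ v, Pool.Agent.TH676.Z.bd src dst z v = 0) ∧
      (∀ e, z e = 0 ∨ z e = 1 ∨ z e = -1) ∧ ∀ e, z e ≠ 0 ↔ e ∈ C := by
  obtain ⟨z, h1, h2, h3⟩ := h
  refine ⟨fun e => ((z e : ℤ) : ZMod 5), fun v => ?_, fun e => ?_, fun e => ?_⟩
  · have h4 := h1 v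
    rw [Finset.sum_filter, Finset.sum_filter, ← sub_eq_zero, ← Finset.sum_sub_distrib] at h4
    have h5 := congrArg (fun t : ℤ => (t : ZMod 5)) h4
    simp only [Int.cast_sum, Int.cast_sub, Int.cast_zero] at h5
    refine Eq.trans ?_ h5
    unfold Pool.Agent.TH676.Z.bd
    rw [Finset.sum_sub_distrib, Finset.sum_sub_distrib]
    congr 1 <;>
    · refine Finset.sum_congr rfl fun e _ => ?_
      split_ifs <;> simp
  · rcases h2 e with h | h | h <;> simp [h]
  · rw [← h3 e]
    have h10 : (1 : ZMod 5) ≠ 0 := by decide
    rcases h2 e with h | h | h <;> simp [h, h10]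

theorem cycleSpace_eq [Fintype X] [DecidableEq X] [Fintype D] [DecidableEq D] (a b : D → X) :
    cycleSpace a b = Pool.Agent.TH676.Z.ZF a b Finset.univ := by
  ext z
  have h2 : ∀ x, Pool.Agent.TH676.Z.bd2 a b z x =
      ∑ d ∈ Finset.univ.filter (fun d => a d = x), z d
        + ∑ d ∈ Finset.univ.filter (fun d => b d = x), z d := by
    intro x
    unfold Pool.Agent.TH676.Z.bd2
    rw [Finset.sum_add_distrib, Finset.sum_filter, Finset.sum_filter]
  constructor
  · intro h
    exact ⟨fun d hd => absurd (Finset.mem_univ d) hd, fun x => by rw [h2 x]; exact h x⟩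
  · rintro ⟨_, h'⟩
    exact fun x => by rw [← h2 x]; exact h' x

open Pool.Agent.J4.H76.SG in
/-- the labels of a family of sets -/
theorem rep_of [Fintype V] [DecidableEq V] [Fintype E] [DecidableEq E] {src dst : E → V}
    {T : Finset V} {C : Finset E} {meet : V → V → Prop}
    (h1 : ∀ u ∉ T, ∀ v ∉ T, Adjacent src dst u v → meet u v)
    (h2 : ∀ u ∉ T, ∀ v ∉ T, meet u v → Near src dst C u v)
    [Fintype X] [DecidableEq X] [Fintype D] [DecidableEq D] {a b : D → X} {F : Finset D} {h : ℕ}
    (hM : Pool.Agent.TH676.Z.Mac h a b F) (R : V → Finset X)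
    (hR : ∀ v ∉ T, Con a b F (R v))
    (hm : ∀ u ∉ T, ∀ v ∉ T, (meet u v ↔ ∃ x, x ∈ R u ∧ x ∈ R v)) :
    ∃ L : X → Finset V, Rep src dst T (Nr src dst C) h a b F L := by
  classical
  have hmem : ∀ x u, u ∈ Finset.univ.filter (fun v => v ∉ T ∧ x ∈ R v) ↔ u ∉ T ∧ x ∈ R u := by
    intro x u
    simp
  refine ⟨fun x => Finset.univ.filter (fun v => v ∉ T ∧ x ∈ R v), ?_, ?_, ?_, ?_, hM⟩
  · intro x u hu
    exact ((hmem x u).1 hu).1
  · intro x u hu v hv _
    obtain ⟨a1, a2⟩ := (hmem x u).1 hu
    obtain ⟨b1, b2⟩ := (hmem x v).1 hv
    exact h2 u a1 v b1 ((hm u a1 v b1).2 ⟨x, a2, b2⟩)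
  · intro e he hs hd
    obtain ⟨x, hx1, hx2⟩ := (hm _ hs _ hd).1 (h1 _ hs _ hd ⟨he, e, Or.inl ⟨rfl, rfl⟩⟩)
    exact ⟨x, (hmem x _).2 ⟨hs, hx1⟩, (hmem x _).2 ⟨hd, hx2⟩⟩
  · intro u
    by_cases hu : u ∈ T
    · refine con_empty fun x hx => ?_
      rw [mem_Rg, hmem] at hx
      exact hx.1 hu
    · have h3 : Rg (fun x => Finset.univ.filter (fun v => v ∉ T ∧ x ∈ R v)) u = R u := by
        ext x
        rw [mem_Rg, hmem]
        exact ⟨fun h => h.2, fun h => ⟨hu, h⟩⟩
      rw [h3]
      exact hR u hu

/-- Let `src dst : E → V` be a bridgeless multigraph, let `C` be a chain of cycles each of which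
has at most eleven edges outside of the union of the earlier ones, for instance the empty chain, let
`F` be their union, and let `T` be a set of at most 18 vertices.  Suppose that there is a relation
`meet` on the vertices outside `T` which is true for adjacent vertices, which is only true for
vertices joined by paths in `F` to equal or adjacent vertices (so if `F` is empty it is true, for
different vertices, if and only if they are adjacent), and which is the intersection relation of
connected sets in the plane, or of connected sets of vertices of a graph which satisfies MacLane's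
condition with defect `h`, `7 |T| + 6 h ≤ 137`.  Then the graph has a nowhere-zero 5-flow, and the
characteristic polynomial of its bond matroid is positive at all integers `q ≥ 5`. -/
theorem result :
    ∀ (V E : Type) [Fintype V] [DecidableEq V] [Fintype E] [DecidableEq E] (src dst : E → V)
      (m : ℕ) (C : Fin m → Finset E) (T : Finset V) (meet : V → V → Prop),
      (∀ Y : Finset V, (boundary src dst Y).card ≠ 1) →
      (∀ i, ∃ z : E → ℤ, IsFlow src dst z ∧ (∀ e, z e = 0 ∨ z e = 1 ∨ z e = -1) ∧
        ∀ e, z e ≠ 0 ↔ e ∈ C i) →
      (∀ i, (C i \ (Finset.univ.filter (fun j => j < i)).biUnion C).card ≤ 11) →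
      T.card ≤ 18 →
      (∀ u ∉ T, ∀ v ∉ T, Adjacent src dst u v → meet u v) →
      (∀ u ∉ T, ∀ v ∉ T, meet u v → Near src dst (Finset.univ.biUnion C) u v) →
      (MeetInPlane T meet ∨ ∃ h, 7 * T.card + 6 * h ≤ 137 ∧ MeetInGraph T meet h) →
      (∃ f : E → ℤ, IsFlow src dst f ∧ ∀ e, 1 ≤ |f e| ∧ |f e| ≤ 4) ∧
      ∀ q : ℕ, 5 ≤ q → 0 < bondCharPoly src dst q := by
  classical
  intro V E _ _ _ _ src dst m C T meet hb hC hnew hT h1 h2 hrep
  have hbr : Pool.Agent.TH676.Z.Br src dst ∅ ∅ :=
    fun Y _ => by rw [Finset.sdiff_empty]; exact hb Y
  have hch : Pool.Agent.J4.H76.SG.Chain src dst m C :=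
    ⟨fun i => mod5 src dst (C i) (hC i), hnew⟩
  have hfl : Pool.Agent.TH676.Z.FlowOn src dst ∅ ∅ := by
    rcases hrep with ⟨Z, hZ, hm⟩ | ⟨h, hh, X, D, _, _, _, _, a, b, R, hM, hR, hm⟩
    · obtain ⟨Z', c1, c2, c3⟩ := Pool.Agent.J4.H76.SG.Disc.cpt
        (fun v => if v ∈ T then ∅ else Z v) (by
          intro v
          by_cases hv : v ∈ T
          · rw [if_pos hv]
            exact Or.inr ⟨isCompact_empty, isPreconnected_empty⟩
          · rw [if_neg hv]
            rcases hZ v hv with h | ⟨h, h'⟩
            · exact Or.inl h
            · exact Or.inr ⟨h, h'.isPreconnected⟩)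
      obtain ⟨n, R, hR1, hR2⟩ := Pool.Agent.J4.H76.SG.Disc.disc Z' c1 c2
      obtain ⟨L, hL⟩ := rep_of h1 h2 (Pool.Agent.J4.H76.SG.Grid.mac n) R (fun v _ => hR1 v) (by
        intro u hu v hv
        rw [hR2, c3, if_neg hu, if_neg hv]
        exact hm u hu v hv)
      exact Pool.Agent.J4.H76.SG.flow_of_ClR Pool.Agent.Y335.FL.contract_all
        Pool.Agent.Y335.FL.lift_all Pool.Agent.Y335.FL.even_all Pool.Agent.Y335.FL.edge62_all
        (k := 18) (h := 0) le_rfl (by norm_num) src dst ⟨m, C, hch, T, hT, _, _, _, L, hL⟩ hbr
    · have hM' : Pool.Agent.TH676.Z.Mac h a b Finset.univ := by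
        obtain ⟨k, K, k1, k2, k3⟩ := hM
        rw [cycleSpace_eq] at k3
        exact ⟨k, K, fun i => by rw [← cycleSpace_eq]; exact k1 i, k2, k3⟩
      obtain ⟨L, hL⟩ := rep_of h1 h2 hM' R (fun v hv B hB hBn p1 p2 =>
        hR v hv B hB hBn (fun d => p1 d (Finset.mem_univ _)) (fun d => p2 d (Finset.mem_univ _)))
        (by
          intro u hu v hv
          rw [hm u hu v hv]
          constructor
          · rintro ⟨x, hx⟩
            exact ⟨x, (Finset.mem_inter.1 hx).1, (Finset.mem_inter.1 hx).2⟩
          · rintro ⟨x, hx1, hx2⟩
            exact ⟨x, Finset.mem_inter.2 ⟨hx1, hx2⟩⟩)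
      exact Pool.Agent.J4.H76.SG.flow_of_ClR Pool.Agent.Y335.FL.contract_all
        Pool.Agent.Y335.FL.lift_all Pool.Agent.Y335.FL.even_all Pool.Agent.Y335.FL.edge62_all
        (k := T.card) (h := h) hT hh src dst ⟨m, C, hch, T, le_rfl, _, _, _, L, hL⟩ hbr
  obtain ⟨F, hF, hF0⟩ := int_flow src dst (nzf src dst hfl)
  have hF1 := (isFlow_iff src dst F).mpr hF0
  exact ⟨⟨F, hF1, hF⟩, fun q hq => charPoly_pos src dst F hF1 hF q hq⟩

/-- **String graphs.** -/
theorem stringGraphs (V E : Type) [Fintype V] [DecidableEq V] [Fintype E] [DecidableEq E]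
    (src dst : E → V) (Z : V → Set (ℝ × ℝ)) (hZ : ∀ v, IsPathConnected (Z v))
    (h : ∀ u v, u ≠ v → (Adjacent src dst u v ↔ (Z u ∩ Z v).Nonempty))
    (hb : ∀ Y : Finset V, (boundary src dst Y).card ≠ 1) :
    ∃ f : E → ℤ, IsFlow src dst f ∧ ∀ e, 1 ≤ |f e| ∧ |f e| ≤ 4 := by
  refine (result V E src dst 0 (fun i => i.elim0) ∅ (fun u v => (Z u ∩ Z v).Nonempty) hb
    (fun i => i.elim0) (fun i => i.elim0) (by simp)
    (fun u _ v _ huv => (h u v huv.1).1 huv) (fun u _ v _ huv => ?_)
    (Or.inl ⟨Z, fun v _ => Or.inl (hZ v), fun u _ v _ => Iff.rfl⟩)).1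
  by_cases huv' : u = v
  · exact ⟨u, v, Relation.EqvGen.refl _, Relation.EqvGen.refl _, Or.inl huv'⟩
  · exact ⟨u, v, Relation.EqvGen.refl _, Relation.EqvGen.refl _, Or.inr ((h u v huv').2 huv)⟩

end Pool.Agent.Results.MP_c8786f_co.StringGraphs
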