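import Mathlib
import Pool.Agent.TH497.PW.IntFlow
import Pool.Agent.TH362.FP.Pos
import Pool.Agent.Y335.FL.Main
import Pool.Agent.J4.H42.FlB

set_option autoImplicit false

/-!
# Nowhere-zero 5-flows in graphs without large subcubic subgraphs (MP_c8786f_co)

Let `G` be a bridgeless multigraph in which every loopless subgraph with maximum degree at most
three has cyclomatic number at most `63`; in other words, if `G` contains disjoint circuits and
subdivisions of connected cubic multigraphs, `a` circuits and `b` subdivisions with `n` vertices of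
degree three altogether, then `a + b + n / 2 ≤ 63`.  Then `G` has a nowhere-zero 5-flow, and the
characteristic polynomial of its bond matroid, a binary matroid without a minor isomorphic to `F_7`
or `M(K_{3,3})`, is positive at all integers `q ≥ 5`.  So every counterexample to Tutte's 5-flow
conjecture, with vertices of arbitrary degrees, contains such a subgraph with cyclomatic number 64.  The order, the degrees, the connectivity and the cyclomatic number of `G`
are arbitrary.  (The class contains `G` if the cyclomatic number of `G - S` is at most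
`63 - 2 |S|` for a set `S` of vertices, since the deletion of a vertex lowers the cyclomatic number of
a subcubic graph by at most two.  The cyclomatic number of Tutte's 12-cage is 64.)

More generally this may be assumed for the graph `G / F`, where `F` is the union of a chain of cycles
each of which has at most eleven edges outside of the union of the earlier ones.

Proof.  The edges of `F` are contracted (library `Y335/FL`).  The class is closed under contractions:
let `A` be a subcubic subgraph of `G / e`; if at both ends of `e` there are edges of `A`, then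
`A + e` is a subcubic subgraph of `G`, otherwise `A` is, with the same cyclomatic number.  Let `H`
be a graph in the class without nowhere-zero 5-flow all of whose proper quotients have such flows.
`H` has girth at least twelve, its degrees are at least three (apart from isolated vertices), and a
set of `k ≥ 2` vertices spans at most `(5 k - 6) / 3` edges (library `N410/FV`).  By the Moore bound
for irregular graphs of girth twelve (Alon, Hoory, Linial; library `Y335/FL`) the number `n` of the
vertices and the number `m` of the edges of `H` satisfy `n ≥ 2 (1 + x + ... + x ^ 5)` with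
`x = 2 m / n - 1`, `2 ≤ x ≤ 7 / 3`, and so `2 m ≤ 4 n - 126`.  Delete `d(v) - 3` edges at every
vertex `v`: at most `2 m - 3 n` edges.  The remaining subcubic graph has cyclomatic number at least
`m - (2 m - 3 n) - n + 1 = 2 n - m + 1 ≥ 64`.
-/

namespace Pool.Agent.Results.MP_c8786f_co.SubcubicSubgraphs

open Pool.Agent.TH497.PW

variable {V E : Type}

/-- The edges with exactly one end in `X`. -/
def boundary [DecidableEq V] [Fintype E] (src dst : E → V) (X : Finset V) : Finset E :=
  Finset.univ.filter (fun e => ¬ (src e ∈ X ↔ dst e ∈ X))

/-- Kirchhoff's law. -/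
def IsFlow [DecidableEq V] [Fintype E] (src dst : E → V) (f : E → ℤ) : Prop :=
  ∀ v : V, ∑ e ∈ Finset.univ.filter (fun e => src e = v), f e
    = ∑ e ∈ Finset.univ.filter (fun e => dst e = v), f e

/-- The degree of `v` in the graph with the edges `A` (loops count twice). -/
def degree [DecidableEq V] (src dst : E → V) (A : Finset E) (v : V) : ℕ :=
  (A.filter (fun e => src e = v)).card + (A.filter (fun e => dst e = v)).card

/-- The cycle space over `GF(2)` of the graph with the edges `A`. -/
def cycleSpace [DecidableEq V] [Fintype E] (src dst : E → V) (A : Finset E) :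
    Submodule (ZMod 2) (E → ZMod 2) where
  carrier := {x | (∀ e, e ∉ A → x e = 0) ∧
    ∀ v : V, ∑ e ∈ Finset.univ.filter (fun e => src e = v), x e
      + ∑ e ∈ Finset.univ.filter (fun e => dst e = v), x e = 0}
  add_mem' := by
    rintro a b ⟨h1, h2⟩ ⟨h3, h4⟩
    refine ⟨fun e he => by rw [Pi.add_apply, h1 e he, h3 e he, add_zero], fun v => ?_⟩
    simp only [Pi.add_apply, Finset.sum_add_distrib]
    have := congrArg₂ (· + ·) (h2 v) (h4 v)
    simp only [add_zero] at this
    rw [← this]
    ring
  zero_mem' := ⟨fun _ _ => rfl, fun v => by simp⟩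
  smul_mem' := by
    rintro c a ⟨h1, h2⟩
    refine ⟨fun e he => by rw [Pi.smul_apply, h1 e he, smul_zero], fun v => ?_⟩
    simp only [Pi.smul_apply, smul_eq_mul, ← Finset.mul_sum]
    rw [← mul_add, h2 v, mul_zero]

/-- Every set `A` of edges which are not loops such that the graph with the edges `A` has maximum
degree at most three has cyclomatic number (dimension of the cycle space) at most `N`. -/
def SmallSubcubic [DecidableEq V] [Fintype E] (N : ℕ) (src dst : E → V) : Prop :=
  ∀ A : Finset E, (∀ e ∈ A, src e ≠ dst e) → (∀ v, degree src dst A v ≤ 3) →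
    Module.finrank (ZMod 2) (cycleSpace src dst A) ≤ N

/-- The vertices `v` and `w` are joined by edges of `F`. -/
def Joined (src dst : E → V) (F : Finset E) (v w : V) : Prop :=
  Relation.EqvGen (fun a b => ∃ e ∈ F, src e = a ∧ dst e = b) v w

/-- The component of `v` in the graph `(V, F)`, as a set of vertices. The graph `G / F` is given by
`comp src dst F ∘ src` and `comp src dst F ∘ dst`; its vertices are these sets (there are further
vertices which have no edges). -/
noncomputable def comp [Fintype V] (src dst : E → V) (F : Finset E) (v : V) : Finset V :=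
  open Classical in Finset.univ.filter (fun w => Joined src dst F v w)

/-- The number of the components of the graph with the vertices `V` and the edges `A`. -/
noncomputable def components (src dst : E → V) (A : Finset E) : ℕ :=
  Nat.card (SimpleGraph.fromRel
    (fun u v : V => ∃ e ∈ A, src e = u ∧ dst e = v)).ConnectedComponent

/-- The rank of `A` in the cycle matroid of the graph. -/
noncomputable def cycleRank [Fintype V] (src dst : E → V) (A : Finset E) : ℕ :=
  Fintype.card V - components src dst A

/-- The rank of `A` in the bond matroid of the graph (the dual of the cycle matroid). -/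
noncomputable def bondRank [Fintype V] [Fintype E] [DecidableEq E] (src dst : E → V)
    (A : Finset E) : ℕ :=
  A.card + cycleRank src dst Aᶜ - cycleRank src dst Finset.univ

/-- The characteristic polynomial of the bond matroid at the integer `x`. -/
noncomputable def bondCharPoly [Fintype V] [Fintype E] [DecidableEq E] (src dst : E → V)
    (x : ℤ) : ℤ :=
  ∑ A : Finset E, (-1) ^ A.card * x ^ (bondRank src dst Finset.univ - bondRank src dst A)

theorem isFlow_iff [DecidableEq V] [Fintype E] (src dst : E → V) (f : E → ℤ) :
    IsFlow src dst f ↔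
      ∀ v, ∑ e, f e * ((if src e = v then 1 else 0) - (if dst e = v then 1 else 0)) = 0 := by
  unfold IsFlow
  refine forall_congr' fun v => ?_
  rw [Finset.sum_filter, Finset.sum_filter, ← sub_eq_zero, ← Finset.sum_sub_distrib]
  have : ∀ e, (if src e = v then f e else 0) - (if dst e = v then f e else 0)
      = f e * ((if src e = v then 1 else 0) - (if dst e = v then 1 else 0)) := by
    intro e
    by_cases h1 : src e = v <;> by_cases h2 : dst e = v <;> simp [h1, h2]
  rw [Finset.sum_congr rfl (fun e _ => this e)]

theorem nzf [Fintype V] [DecidableEq V] [Fintype E] [DecidableEq E] (src dst : E → V)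
    (h : Pool.Agent.TH676.Z.FlowOn src dst ∅ ∅) : NZF src dst := by
  obtain ⟨f, h1, _, h3⟩ := h
  refine ⟨f, fun e => h3 e (Finset.notMem_empty _) (Finset.notMem_empty _), fun x => ?_⟩
  rw [← h1 x]
  unfold Pool.Agent.TH676.Z.bd
  refine Finset.sum_congr rfl fun e _ => ?_
  unfold ic
  by_cases h4 : src e = x <;> by_cases h5 : dst e = x <;> simp [h4, h5]

theorem charPoly_pos [Fintype V] [DecidableEq V] [Fintype E] [DecidableEq E] (src dst : E → V)
    (f : E → ℤ) (h1 : IsFlow src dst f) (h2 : ∀ e, 1 ≤ |f e| ∧ |f e| ≤ 4) (q : ℕ) (hq : 5 ≤ q) :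
    0 < bondCharPoly src dst q :=
  Pool.Agent.TH362.FP.chr_pos src dst f h2 h1 q hq

/-- the reduction modulo five of a flow with values in `{0, 1, -1}` -/
theorem mod5 [Fintype V] [DecidableEq V] [Fintype E] [DecidableEq E] (src dst : E → V)
    (C : Finset E) (h : ∃ z : E → ℤ, IsFlow src dst z ∧ (∀ e, z e = 0 ∨ z e = 1 ∨ z e = -1) ∧
      ∀ e, z e ≠ 0 ↔ e ∈ C) :
    ∃ z : E → ZMod 5, (∀ v, Pool.Agent.TH676.Z.bd src dst z v = 0) ∧
      (∀ e, z e = 0 ∨ z e = 1 ∨ z e = -1) ∧ ∀ e, z e ≠ 0 ↔ e ∈ C := by
  obtain ⟨z, h1, h2, h3⟩ := h
  refine ⟨fun e => ((z e : ℤ) : ZMod 5), fun v => ?_, fun e => ?_, fun e => ?_⟩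
  · have h4 := h1 v
    rw [Finset.sum_filter, Finset.sum_filter, ← sub_eq_zero, ← Finset.sum_sub_distrib] at h4
    have h5 := congrArg (fun t : ℤ => (t : ZMod 5)) h4
    simp only [Int.cast_sum, Int.cast_sub, Int.cast_zero] at h5
    refine Eq.trans ?_ h5
    unfold Pool.Agent.TH676.Z.bd
    rw [Finset.sum_sub_distrib, Finset.sum_sub_distrib]
    congr 1 <;>
    · refine Finset.sum_congr rfl fun e _ => ?_
      split_ifs <;> simp
  · rcases h2 e with h | h | h <;> simp [h]
  · rw [← h3 e]
    have h10 : (1 : ZMod 5) ≠ 0 := by decide
    rcases h2 e with h | h | h <;> simp [h, h10]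

theorem cycleSpace_eq [Fintype V] [DecidableEq V] [Fintype E] [DecidableEq E] (src dst : E → V)
    (A : Finset E) : cycleSpace src dst A = Pool.Agent.TH676.Z.ZF src dst A := by
  ext x
  have h2 : ∀ v, Pool.Agent.TH676.Z.bd2 src dst x v =
      ∑ e ∈ Finset.univ.filter (fun e => src e = v), x e
        + ∑ e ∈ Finset.univ.filter (fun e => dst e = v), x e := by
    intro v
    unfold Pool.Agent.TH676.Z.bd2
    rw [Finset.sum_add_distrib, Finset.sum_filter, Finset.sum_filter]
  constructor
  · rintro ⟨h, h'⟩
    exact ⟨h, fun v => by rw [h2 v]; exact h' v⟩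
  · rintro ⟨h, h'⟩
    exact ⟨h, fun v => by rw [← h2 v]; exact h' v⟩

theorem comp_eq_iff [Fintype V] (src dst : E → V) (F : Finset E) (x y : V) :
    comp src dst F x = comp src dst F y ↔ Pool.Agent.J4.H42.Fl.Joined src dst F x y := by
  classical
  have hmem : ∀ a b, b ∈ comp src dst F a ↔ Joined src dst F a b := by
    intro a b
    unfold comp
    rw [Finset.mem_filter]
    simp
  constructor
  · intro h
    have h1 : y ∈ comp src dst F y := (hmem y y).2 (Relation.EqvGen.refl y)
    rw [← h] at h1
    exact (hmem x y).1 h1
  · intro h
    ext z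
    rw [hmem, hmem]
    constructor
    · intro h1
      exact Relation.EqvGen.trans _ _ _ (Relation.EqvGen.symm _ _ h) h1
    · intro h1
      exact Relation.EqvGen.trans _ _ _ h h1

/-- Let `src dst : E → V` be a bridgeless multigraph, let `C` be a chain of cycles each of which
has at most eleven edges outside of the union of the earlier ones, for instance the empty chain, and
let `F` be their union.  If all loopless subgraphs of the graph `G / F` with maximum degree at most
three have cyclomatic number at most `63`, then the graph has a nowhere-zero 5-flow, and the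
characteristic polynomial of the bond matroid is positive at all integers `q ≥ 5`. -/
theorem result :
    ∀ (V E : Type) [Fintype V] [DecidableEq V] [Fintype E] [DecidableEq E] (src dst : E → V)
      (m : ℕ) (C : Fin m → Finset E),
      (∀ Y : Finset V, (boundary src dst Y).card ≠ 1) →
      (∀ i, ∃ z : E → ℤ, IsFlow src dst z ∧ (∀ e, z e = 0 ∨ z e = 1 ∨ z e = -1) ∧
        ∀ e, z e ≠ 0 ↔ e ∈ C i) →
      (∀ i, (C i \ (Finset.univ.filter (fun j => j < i)).biUnion C).card ≤ 11) →
      SmallSubcubic 63 (comp src dst (Finset.univ.biUnion C) ∘ src)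
        (comp src dst (Finset.univ.biUnion C) ∘ dst) →
      (∃ f : E → ℤ, IsFlow src dst f ∧ ∀ e, 1 ≤ |f e| ∧ |f e| ≤ 4) ∧
      ∀ q : ℕ, 5 ≤ q → 0 < bondCharPoly src dst q := by
  intro V E _ _ _ _ src dst m C hb hC hnew h
  have hS : Pool.Agent.J4.H42.Fl.Sub3 63 (comp src dst (Finset.univ.biUnion C) ∘ src)
      (comp src dst (Finset.univ.biUnion C) ∘ dst) := by
    intro A h1 h2
    have h3 := h A h1 h2
    rwa [cycleSpace_eq] at h3
  have h1 := Pool.Agent.J4.H42.Fl.flow_sub3 Pool.Agent.Y335.FL.quot'
    Pool.Agent.Y335.FL.contract_all Pool.Agent.Y335.FL.ahl src dst (Finset.univ.biUnion C)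
    (fun Y _ => by rw [Finset.sdiff_empty]; exact hb Y) (comp src dst (Finset.univ.biUnion C))
    (comp_eq_iff src dst _) hS
  have hfl := Pool.Agent.Y335.FL.lift_all V E src dst m C (fun i => mod5 src dst (C i) (hC i)) hnew h1
  obtain ⟨F, hF, hF0⟩ := int_flow src dst (nzf src dst hfl)
  have hF1 := (isFlow_iff src dst F).mpr hF0
  exact ⟨⟨F, hF1, hF⟩, fun q hq => charPoly_pos src dst F hF1 hF q hq⟩

end Pool.Agent.Results.MP_c8786f_co.SubcubicSubgraphs
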