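import Mathlib
import Pool.Agent.TH497.PW.IntFlow
import Pool.Agent.TH362.FP.Pos
import Pool.Agent.Y335.FL.Main
import Pool.Agent.J4.H42.FlB

set_option autoImplicit false

/-!
# Nowhere-zero 5-flows in graphs with two spanning trees which have at most 60 common edges
(MP_c8786f_co)

Let `G` be a bridgeless multigraph with two spanning trees which have at most `60` edges in common
(in other words: after the addition of at most `60` edges there are two disjoint spanning trees).
Then `G` has a nowhere-zero 5-flow, and the characteristic polynomial of its bond matroid, a binary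
matroid without a minor isomorphic to `F_7` or `M(K_{3,3})`, is positive at all integers `q ≥ 5`.
The order, the degrees, the numbers of the edge cuts with two and three edges and the structure of
`G` are arbitrary.  (With two disjoint spanning trees there is a nowhere-zero 4-flow, by Jaeger's
theorem.  For Tutte's 12-cage the two trees have at least 61 common edges, and for the Petersen
graph at least three.)

More generally it is sufficient that every partition of the vertex set into `k` classes with at
least three boundary edges each has more than `(5 k - 6) / 3` crossing edges, or has `m` crossing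
edges with `k < 2 (1 + x + ... + x ^ 5)`, where `x + 1 = 2 m / k` is the average number of boundary
edges of the classes; for instance, if `m ≥ 2 k - 62` for all these partitions.  And only the
partitions without crossing edges in the union `F` of a chain of cycles are needed, each of which has
at most eleven edges outside of the union of the earlier ones; so the common edges of the two trees
which are in `F` are not counted.

Proof.  The edges of `F` are contracted (library `Y335/FL`).  Let `H` be a quotient of `G` without
nowhere-zero 5-flow all of whose proper quotients have such flows.  `H` has girth at least twelve,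
its degrees are at least three (apart from isolated vertices), and a set of `k ≥ 2` vertices spans at
most `(5 k - 6) / 3` edges (library `N410/FV`).  By the Moore bound for irregular graphs of girth
twelve (Alon, Hoory, Linial; library `Y335/FL`) the number `k` of the vertices of `H` is at least
`2 (1 + x + ... + x ^ 5)`, where `x + 1` is the average degree; the classes of the vertices of `H`
are a partition which contradicts the condition.  As `2 ≤ x ≤ 7 / 3` and
`2 (3 - x) (1 + x + ... + x ^ 5) ≥ 126`, the number `m` of the edges of `H` is at most `2 k - 63`,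
but two spanning trees with at most `60` common edges have at least `2 (k - 1) - 60` edges between
the classes.
-/

namespace Pool.Agent.Results.MP_c8786f_co.TwoTreesSixtyCommonEdges

open Pool.Agent.TH497.PW

variable {V E : Type}

/-- The edges with exactly one end in `X`. -/
def boundary [DecidableEq V] [Fintype E] (src dst : E → V) (X : Finset V) : Finset E :=
  Finset.univ.filter (fun e => ¬ (src e ∈ X ↔ dst e ∈ X))

/-- Kirchhoff's law. -/
def IsFlow [DecidableEq V] [Fintype E] (src dst : E → V) (f : E → ℤ) : Prop :=
  ∀ v : V, ∑ e ∈ Finset.univ.filter (fun e => src e = v), f e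
    = ∑ e ∈ Finset.univ.filter (fun e => dst e = v), f e

/-- The `i`-th class of the partition `p`. -/
def part [Fintype V] {k : ℕ} (p : V → Fin k) (i : Fin k) : Finset V :=
  Finset.univ.filter (fun v => p v = i)

/-- The edges between different classes of the partition `p`. -/
def crossing [Fintype E] {k : ℕ} (src dst : E → V) (p : V → Fin k) : Finset E :=
  Finset.univ.filter (fun e => p (src e) ≠ p (dst e))

/-- For every partition of the vertex set into `k` classes, such that no edge of `F` joins different
classes and every class has at least three boundary edges, the number `m` of the edges between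
different classes satisfies `3 m + 5 ≥ 5 k` or `k < 2 (1 + x + ... + x ^ 5)`, `x = 2 m / k - 1`. -/
def ManyCrossing [Fintype V] [DecidableEq V] [Fintype E] (src dst : E → V) (F : Finset E) : Prop :=
  ∀ (k : ℕ) (p : V → Fin k), Function.Surjective p → (∀ e ∈ F, p (src e) = p (dst e)) →
    (∀ i, 3 ≤ (boundary src dst (part p i)).card) →
    5 * k ≤ 3 * (crossing src dst p).card + 5 ∨
      (k : ℝ) < 2 * ∑ i ∈ Finset.range 6, (2 * ((crossing src dst p).card : ℝ) / k - 1) ^ i

/-- The graph with the vertices `V` and the edges `T` is connected: `T` meets every edge cut. -/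
def Connects [Fintype V] (src dst : E → V) (T : Finset E) : Prop :=
  ∀ Y : Finset V, Y.Nonempty → Y ≠ Finset.univ → ∃ e ∈ T, ¬ (src e ∈ Y ↔ dst e ∈ Y)

/-- The number of the components of the graph with the vertices `V` and the edges `A`. -/
noncomputable def components (src dst : E → V) (A : Finset E) : ℕ :=
  Nat.card (SimpleGraph.fromRel
    (fun u v : V => ∃ e ∈ A, src e = u ∧ dst e = v)).ConnectedComponent

/-- The rank of `A` in the cycle matroid of the graph. -/
noncomputable def cycleRank [Fintype V] (src dst : E → V) (A : Finset E) : ℕ :=
  Fintype.card V - components src dst A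

/-- The rank of `A` in the bond matroid of the graph (the dual of the cycle matroid). -/
noncomputable def bondRank [Fintype V] [Fintype E] [DecidableEq E] (src dst : E → V)
    (A : Finset E) : ℕ :=
  A.card + cycleRank src dst Aᶜ - cycleRank src dst Finset.univ

/-- The characteristic polynomial of the bond matroid at the integer `x`. -/
noncomputable def bondCharPoly [Fintype V] [Fintype E] [DecidableEq E] (src dst : E → V)
    (x : ℤ) : ℤ :=
  ∑ A : Finset E, (-1) ^ A.card * x ^ (bondRank src dst Finset.univ - bondRank src dst A)

theorem isFlow_iff [DecidableEq V] [Fintype E] (src dst : E → V) (f : E → ℤ) :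
    IsFlow src dst f ↔
      ∀ v, ∑ e, f e * ((if src e = v then 1 else 0) - (if dst e = v then 1 else 0)) = 0 := by
  unfold IsFlow
  refine forall_congr' fun v => ?_
  rw [Finset.sum_filter, Finset.sum_filter, ← sub_eq_zero, ← Finset.sum_sub_distrib]
  have : ∀ e, (if src e = v then f e else 0) - (if dst e = v then f e else 0)
      = f e * ((if src e = v then 1 else 0) - (if dst e = v then 1 else 0)) := by
    intro e
    by_cases h1 : src e = v <;> by_cases h2 : dst e = v <;> simp [h1, h2]
  rw [Finset.sum_congr rfl (fun e _ => this e)]

theorem nzf [Fintype V] [DecidableEq V] [Fintype E] [DecidableEq E] (src dst : E → V)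
    (h : Pool.Agent.TH676.Z.FlowOn src dst ∅ ∅) : NZF src dst := by
  obtain ⟨f, h1, _, h3⟩ := h
  refine ⟨f, fun e => h3 e (Finset.notMem_empty _) (Finset.notMem_empty _), fun x => ?_⟩
  rw [← h1 x]
  unfold Pool.Agent.TH676.Z.bd
  refine Finset.sum_congr rfl fun e _ => ?_
  unfold ic
  by_cases h4 : src e = x <;> by_cases h5 : dst e = x <;> simp [h4, h5]

theorem charPoly_pos [Fintype V] [DecidableEq V] [Fintype E] [DecidableEq E] (src dst : E → V)
    (f : E → ℤ) (h1 : IsFlow src dst f) (h2 : ∀ e, 1 ≤ |f e| ∧ |f e| ≤ 4) (q : ℕ) (hq : 5 ≤ q) :
    0 < bondCharPoly src dst q :=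
  Pool.Agent.TH362.FP.chr_pos src dst f h2 h1 q hq

/-- the reduction modulo five of a flow with values in `{0, 1, -1}` -/
theorem mod5 [Fintype V] [DecidableEq V] [Fintype E] [DecidableEq E] (src dst : E → V)
    (C : Finset E) (h : ∃ z : E → ℤ, IsFlow src dst z ∧ (∀ e, z e = 0 ∨ z e = 1 ∨ z e = -1) ∧
      ∀ e, z e ≠ 0 ↔ e ∈ C) :
    ∃ z : E → ZMod 5, (∀ v, Pool.Agent.TH676.Z.bd src dst z v = 0) ∧
      (∀ e, z e = 0 ∨ z e = 1 ∨ z e = -1) ∧ ∀ e, z e ≠ 0 ↔ e ∈ C := by
  obtain ⟨z, h1, h2, h3⟩ := h
  refine ⟨fun e => ((z e : ℤ) : ZMod 5), fun v => ?_, fun e => ?_, fun e => ?_⟩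
  · have h4 := h1 v
    rw [Finset.sum_filter, Finset.sum_filter, ← sub_eq_zero, ← Finset.sum_sub_distrib] at h4
    have h5 := congrArg (fun t : ℤ => (t : ZMod 5)) h4
    simp only [Int.cast_sum, Int.cast_sub, Int.cast_zero] at h5
    refine Eq.trans ?_ h5
    unfold Pool.Agent.TH676.Z.bd
    rw [Finset.sum_sub_distrib, Finset.sum_sub_distrib]
    congr 1 <;>
    · refine Finset.sum_congr rfl fun e _ => ?_
      split_ifs <;> simp
  · rcases h2 e with h | h | h <;> simp [h]
  · rw [← h3 e]
    have h10 : (1 : ZMod 5) ≠ 0 := by decide
    rcases h2 e with h | h | h <;> simp [h, h10]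

/-- Let `src dst : E → V` be a bridgeless multigraph, and let `C` be a chain of cycles each of which
has at most eleven edges outside of the union of the earlier ones (for instance the empty chain).  If

(1) every partition into `k` classes with at least three boundary edges, and without crossing edges
in the chain, has `m` crossing edges with `3 m + 5 ≥ 5 k` or `k < 2 (1 + x + ... + x ^ 5)`,
`x = 2 m / k - 1`, or

(2) there are two sets `T`, `T'` of edges such that the graphs `(V, T)` and `(V, T')` are connected,
for instance two spanning trees, with at most `60` common edges outside the chain (a special case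
of (1)),

then the graph has a nowhere-zero 5-flow, and the characteristic polynomial of the bond matroid is
positive at all integers `q ≥ 5`. -/
theorem result :
    ∀ (V E : Type) [Fintype V] [DecidableEq V] [Fintype E] [DecidableEq E] (src dst : E → V)
      (m : ℕ) (C : Fin m → Finset E),
      (∀ Y : Finset V, (boundary src dst Y).card ≠ 1) →
      (∀ i, ∃ z : E → ℤ, IsFlow src dst z ∧ (∀ e, z e = 0 ∨ z e = 1 ∨ z e = -1) ∧
        ∀ e, z e ≠ 0 ↔ e ∈ C i) →
      (∀ i, (C i \ (Finset.univ.filter (fun j => j < i)).biUnion C).card ≤ 11) →
      (ManyCrossing src dst (Finset.univ.biUnion C) ∨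
        ∃ T T' : Finset E, Connects src dst T ∧ Connects src dst T' ∧
          ((T ∩ T') \ Finset.univ.biUnion C).card ≤ 60) →
      (∃ f : E → ℤ, IsFlow src dst f ∧ ∀ e, 1 ≤ |f e| ∧ |f e| ≤ 4) ∧
      ∀ q : ℕ, 5 ≤ q → 0 < bondCharPoly src dst q := by
  intro V E _ _ _ _ src dst m C hb hC hnew h
  have hcr : Pool.Agent.J4.H42.Fl.Crowd src dst (Finset.univ.biUnion C) := by
    rcases h with h | ⟨T, T', hT, hT', h60⟩
    · exact h
    · exact Pool.Agent.J4.H42.Fl.crowd_of_trees src dst _ T T' hT hT' h60
  have h1 := Pool.Agent.J4.H42.Fl.flow_crowd Pool.Agent.Y335.FL.quot'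
    Pool.Agent.Y335.FL.contract_all Pool.Agent.Y335.FL.ahl src dst (Finset.univ.biUnion C)
    (fun Y _ => by rw [Finset.sdiff_empty]; exact hb Y) hcr
  have hfl := Pool.Agent.Y335.FL.lift_all V E src dst m C (fun i => mod5 src dst (C i) (hC i)) hnew h1
  obtain ⟨F, hF, hF0⟩ := int_flow src dst (nzf src dst hfl)
  have hF1 := (isFlow_iff src dst F).mpr hF0
  exact ⟨⟨F, hF1, hF⟩, fun q hq => charPoly_pos src dst F hF1 hF q hq⟩

end Pool.Agent.Results.MP_c8786f_co.TwoTreesSixtyCommonEdges
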