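import Mathlib
import Pool.Agent.TH497.PW.IntFlow
import Pool.Agent.TH362.FP.Pos
import Pool.Agent.J4.H30.VT.Main

set_option autoImplicit false

/-!
# Nowhere-zero 5-flows in cubic vertex-transitive graphs (MP_c8786f_co)

Let `G` be a finite connected cubic vertex-transitive graph (for example a cubic Cayley graph of any
group) which has a circuit of length at least four with at most eleven edges outside the triangles
of `G`; for example, let the girth of `G` be one of `4, 5, ..., 11`.  Then `G` has a nowhere-zero 5-flow,
and the characteristic polynomial of its bond matroid, a binary matroid without a minor isomorphic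
to `F_7` or `M(K_{3,3})`, is positive at all integers `q ≥ 5`.  The order of `G` and the group are
arbitrary.  (Not covered: the graphs of girth at least twelve, and those which arise from cubic
arc-transitive graphs of girth at least twelve by the replacement of every vertex by a triangle.  A
vertex-transitive graph of valency `d ≥ 4` has a nowhere-zero 4-flow, as it is `d`-edge-connected
(Mader) and 4-edge-connected graphs have nowhere-zero 4-flows (Jaeger).)

Proof.  Let `F` be the largest union of a chain of circuits each of which has at most eleven edges
outside the union of the earlier ones.  It is invariant under automorphisms; so all vertices are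
incident with the same number of edges of `F`, which is two or three.  If it is three then `F` contains
all edges, and the circuits can be contracted (library `Y335/FL`).  If it is two, let `Y` be a set of
vertices, not empty and not the whole set, without boundary edges in `F`, with the least number `λ` of
boundary edges and among those with the least number of vertices.  By uncrossing (the boundaries of
`Y ∖ Y'` and `Y' ∖ Y`) the images of `Y` under automorphisms are equal to or disjoint from `Y`;
hence every vertex of `Y` is incident with exactly one boundary edge, and `λ = |Y|`.  If `λ ≤ 3` then `F`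
consists of disjoint triangles, which is excluded by the circuit of length at least four.  So all cuts
which avoid `F` have at least four edges, and `G / F` has a nowhere-zero flow (library
`J4/H42/FlB`).
-/

namespace Pool.Agent.Results.MP_c8786f_co.VertexTransitive

open Pool.Agent.TH497.PW

variable {V E : Type}

/-- Kirchhoff's law. -/
def IsFlow [DecidableEq V] [Fintype E] (src dst : E → V) (f : E → ℤ) : Prop :=
  ∀ v : V, ∑ e ∈ Finset.univ.filter (fun e => src e = v), f e
    = ∑ e ∈ Finset.univ.filter (fun e => dst e = v), f e

/-- The number of the components of the graph with the vertices `V` and the edges `A`. -/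
noncomputable def components (src dst : E → V) (A : Finset E) : ℕ :=
  Nat.card (SimpleGraph.fromRel
    (fun u v : V => ∃ e ∈ A, src e = u ∧ dst e = v)).ConnectedComponent

/-- The rank of `A` in the cycle matroid of the graph. -/
noncomputable def cycleRank [Fintype V] (src dst : E → V) (A : Finset E) : ℕ :=
  Fintype.card V - components src dst A

/-- The rank of `A` in the bond matroid of the graph (the dual of the cycle matroid). -/
noncomputable def bondRank [Fintype V] [Fintype E] [DecidableEq E] (src dst : E → V)
    (A : Finset E) : ℕ :=
  A.card + cycleRank src dst Aᶜ - cycleRank src dst Finset.univ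

/-- The characteristic polynomial of the bond matroid at the integer `x`. -/
noncomputable def bondCharPoly [Fintype V] [Fintype E] [DecidableEq E] (src dst : E → V)
    (x : ℤ) : ℤ :=
  ∑ A : Finset E, (-1) ^ A.card * x ^ (bondRank src dst Finset.univ - bondRank src dst A)

theorem isFlow_iff [DecidableEq V] [Fintype E] (src dst : E → V) (f : E → ℤ) :
    IsFlow src dst f ↔
      ∀ v, ∑ e, f e * ((if src e = v then 1 else 0) - (if dst e = v then 1 else 0)) = 0 := by
  unfold IsFlow
  refine forall_congr' fun v => ?_
  rw [Finset.sum_filter, Finset.sum_filter, ← sub_eq_zero, ← Finset.sum_sub_distrib]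
  have : ∀ e, (if src e = v then f e else 0) - (if dst e = v then f e else 0)
      = f e * ((if src e = v then 1 else 0) - (if dst e = v then 1 else 0)) := by
    intro e
    by_cases h1 : src e = v <;> by_cases h2 : dst e = v <;> simp [h1, h2]
  rw [Finset.sum_congr rfl (fun e _ => this e)]

theorem nzf [Fintype V] [DecidableEq V] [Fintype E] [DecidableEq E] (src dst : E → V)
    (h : Pool.Agent.TH676.Z.FlowOn src dst ∅ ∅) : NZF src dst := by
  obtain ⟨f, h1, _, h3⟩ := h
  refine ⟨f, fun e => h3 e (Finset.notMem_empty _) (Finset.notMem_empty _), fun x => ?_⟩
  rw [← h1 x]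
  unfold Pool.Agent.TH676.Z.bd
  refine Finset.sum_congr rfl fun e _ => ?_
  unfold ic
  by_cases h4 : src e = x <;> by_cases h5 : dst e = x <;> simp [h4, h5]

theorem charPoly_pos [Fintype V] [DecidableEq V] [Fintype E] [DecidableEq E] (src dst : E → V)
    (f : E → ℤ) (h1 : IsFlow src dst f) (h2 : ∀ e, 1 ≤ |f e| ∧ |f e| ≤ 4) (q : ℕ) (hq : 5 ≤ q) :
    0 < bondCharPoly src dst q :=
  Pool.Agent.TH362.FP.chr_pos src dst f h2 h1 q hq

/-- The edge `e` is in a triangle of `G`. -/
def InTriangle (G : SimpleGraph V) (e : Sym2 V) : Prop :=
  ∃ a b c, G.Adj a b ∧ G.Adj b c ∧ G.Adj c a ∧ e = s(a, b)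

open Classical in
/-- Let `G` be a finite connected cubic vertex-transitive graph, with the edges oriented by `src` and
`dst`, and let `C` be a circuit of `G` with at least four edges, at most eleven of which are not in
triangles of `G`.  Then `G` has a nowhere-zero 5-flow, and the characteristic polynomial of its bond
matroid is positive at all integers `q ≥ 5`. -/
theorem result (V : Type) [Fintype V] [DecidableEq V] (G : SimpleGraph V) [DecidableRel G.Adj]
    (src dst : G.edgeSet → V) (hor : ∀ e, s(src e, dst e) = (e : Sym2 V))
    (hconn : G.Connected) (hcubic : ∀ v, G.degree v = 3)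
    (htrans : ∀ u v : V, ∃ φ : G ≃g G, φ u = v)
    (v₀ : V) (C : G.Walk v₀ v₀) (hC : C.IsCycle) (hlen : 4 ≤ C.length)
    (hnew : (C.edges.toFinset.filter (fun e => ¬ InTriangle G e)).card ≤ 11) :
    (∃ f : G.edgeSet → ℤ, IsFlow src dst f ∧ ∀ e, 1 ≤ |f e| ∧ |f e| ≤ 4) ∧
      ∀ q : ℕ, 5 ≤ q → 0 < bondCharPoly src dst q := by
  have hfl := Pool.Agent.J4.H30.VT.flow5 src dst hor hconn hcubic htrans C hC hlen (by
    unfold InTriangle at hnew
    convert hnew)
  obtain ⟨F, hF, hF0⟩ := int_flow src dst (nzf src dst hfl)
  have hF1 := (isFlow_iff src dst F).mpr hF0
  exact ⟨⟨F, hF1, hF⟩, fun q hq => charPoly_pos src dst F hF1 hF q hq⟩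

end Pool.Agent.Results.MP_c8786f_co.VertexTransitive
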